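import Pool.Agent.W240.CD.CntMain
import Pool.Agent.W4.QD.Stms4

/-!
# Project QD: lower bound for the radical of `ptK α x`
-/

set_option autoImplicit false

namespace Pool.Agent.W563.QD

open NumberField IsDedekindDomain Finset Polynomial
open Pool.Agent.W4.CF Pool.Agent.W4.VC Pool.Agent.W4.QD Pool.Agent.H691R3 Pool.Agent.W240.CD
open scoped IntermediateField

section nrm
variable {K : Type} [Field K] [NumberField K]

/-- the norm of `u - v α` in terms of an irreducible polynomial of `α` -/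
lemma norm_sub (α : K) (g : ℚ[X]) (hg : Irreducible g) (hα : aeval α g = 0) (u v : ℚ)
    (hv : v ≠ 0) : ∃ e : ℕ, 1 ≤ e ∧
      Algebra.norm ℚ (algebraMap ℚ K u - algebraMap ℚ K v * α) =
        (v ^ g.natDegree * g.eval (u / v) / g.leadingCoeff) ^ e := by
  set a : K := algebraMap ℚ K u - algebraMap ℚ K v * α with ha
  have hvK : algebraMap ℚ K v ≠ 0 := by
    rwa [Ne, map_eq_zero]
  have hv' : -v⁻¹ ≠ 0 := neg_ne_zero.2 (inv_ne_zero hv)
  set r : ℚ[X] := C (-v⁻¹) * X + C (u / v) with hr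
  set q : ℚ[X] := g.comp r with hq
  have hrd : r.natDegree = 1 := natDegree_linear hv'
  have hrl : r.leadingCoeff = -v⁻¹ := leadingCoeff_linear hv'
  have hirr : Irreducible q := by
    let i := invertibleOfNonzero hv'
    exact (MulEquiv.irreducible_iff (algEquivCMulXAddC (-v⁻¹) (u / v)).toMulEquiv
      (x := g)).2 hg
  have hq0 : aeval a q = 0 := by
    rw [hq, aeval_comp]
    have h1 : aeval a r = α := by
      rw [hr, map_add, map_mul, aeval_C, aeval_C, aeval_X, ha, map_neg, map_inv₀, map_div₀]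
      field_simp
      ring
    rw [h1, hα]
  have hmin := minpoly.eq_of_irreducible hirr hq0
  have hint : IsIntegral ℚ a := Algebra.IsIntegral.isIntegral a
  have hql : q.leadingCoeff = g.leadingCoeff * (-v⁻¹) ^ g.natDegree := by
    rw [hq, leadingCoeff_comp (by rw [hrd]; exact one_ne_zero), hrl]
  have hqd : q.natDegree = g.natDegree := by
    rw [hq, natDegree_comp, hrd, mul_one]
  have hqc : q.coeff 0 = g.eval (u / v) := by
    rw [coeff_zero_eq_eval_zero, hq, eval_comp, hr]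
    simp
  have hg0 : g.leadingCoeff ≠ 0 := leadingCoeff_ne_zero.2 hg.ne_zero
  have hql0 : q.leadingCoeff ≠ 0 := leadingCoeff_ne_zero.2 hirr.ne_zero
  have hmd : (minpoly ℚ a).natDegree = g.natDegree := by
    rw [← hmin, natDegree_mul_C (inv_ne_zero hql0), hqd]
  have hmc : (minpoly ℚ a).coeff 0 = g.eval (u / v) * q.leadingCoeff⁻¹ := by
    rw [← hmin, coeff_mul_C, hqc]
  refine ⟨Module.finrank ℚ⟮a⟯ K, Module.finrank_pos, ?_⟩
  rw [Algebra.norm_eq_norm_adjoin]
  congr 1
  have h1 := Algebra.PowerBasis.norm_gen_eq_coeff_zero_minpoly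
    (IntermediateField.adjoin.powerBasis hint)
  rw [IntermediateField.adjoin.powerBasis_gen, IntermediateField.minpoly_gen,
    IntermediateField.adjoin.powerBasis_dim, hmd, hmc, hql] at h1
  rw [h1]
  have h2 : ((-1 : ℚ) ^ g.natDegree) ≠ 0 := pow_ne_zero _ (by norm_num)
  have h3 : (-v⁻¹) ^ g.natDegree = (-1) ^ g.natDegree * (v ^ g.natDegree)⁻¹ := by
    rw [← inv_pow, ← mul_pow]
    congr 1
    ring
  rw [h3]
  field_simp

lemma hom_eval (f : ℤ[X]) (u v : ℤ) (hv : v ≠ 0) : ((hom f f.natDegree u v : ℤ) : ℚ) =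
    (v : ℚ) ^ f.natDegree * (f.map (Int.castRingHom ℚ)).eval ((u : ℚ) / v) := by
  have hvQ : (v : ℚ) ≠ 0 := by exact_mod_cast hv
  rw [eval_map, eval₂_eq_sum_range, Finset.mul_sum, hom]
  push_cast
  refine Finset.sum_congr rfl fun j hj => ?_
  have hj' : j ≤ f.natDegree := Nat.lt_succ_iff.1 (Finset.mem_range.1 hj)
  have h1 : (v : ℚ) ^ f.natDegree = (v : ℚ) ^ j * (v : ℚ) ^ (f.natDegree - j) := by
    rw [← pow_add, Nat.add_sub_cancel' hj']
  rw [h1, div_pow]
  simp only [eq_intCast]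
  field_simp

lemma fv_one (w : HeightOneSpectrum (𝓞 K)) (p : ℕ) (hp : p.Prime) (hw : fv w (p : K) < 1) (n : ℤ)
    (hn : ¬ (p : ℤ) ∣ n) : fv w (n : K) = 1 := by
  have h1 : IsCoprime (p : ℤ) n :=
    (Prime.coprime_iff_not_dvd (Nat.prime_iff_prime_int.1 hp)).2 hn
  have h2 := max_one w _ _ h1
  rw [Int.cast_natCast] at h2
  rcases max_choice (fv w (p : K)) (fv w (n : K)) with h3 | h3
  · rw [h3] at h2
    exact absurd h2 hw.ne
  · rw [h3] at h2
    exact h2

lemma exists_place (α : K) (f : ℤ[X]) (hf : Irreducible (f.map (Int.castRingHom ℚ)))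
    (h0 : aeval α f = 0) (u v : ℤ) (hv : v ≠ 0) (p : ℕ) (hp : p.Prime)
    (hpL : ¬ (p : ℤ) ∣ f.leadingCoeff) (hpF : (p : ℤ) ∣ hom f f.natDegree u v) :
    ∃ w : HeightOneSpectrum (𝓞 K), fv w (p : K) < 1 ∧ fv w ((u : K) - v * α) < 1 := by
  have hpi : Prime (p : ℤ) := Nat.prime_iff_prime_int.1 hp
  set L : ℤ := f.leadingCoeff with hL
  have hL0 : L ≠ 0 := fun h => hpL (h ▸ dvd_zero _)
  have hLQ : (L : ℚ) ≠ 0 := by exact_mod_cast hL0
  obtain ⟨y, hy⟩ : ∃ y : 𝓞 K, (y : K) = L * α := by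
    have h1 := isIntegral_leadingCoeff_smul f α h0
    refine ⟨⟨(L : K) * α, ?_⟩, rfl⟩
    rw [zsmul_eq_mul] at h1
    exact h1
  set x : 𝓞 K := (L : 𝓞 K) * u - v * y with hx
  have hxK : (x : K) = (L : K) * ((u : K) - v * α) := by
    have h1 : (x : K) = (L : K) * u - v * (y : K) := by
      rw [hx]
      simp
    rw [h1, hy]
    ring
  have hinj : Function.Injective (Int.castRingHom ℚ) := Int.cast_injective
  have hdeg : (f.map (Int.castRingHom ℚ)).natDegree = f.natDegree :=
    natDegree_map_eq_of_injective hinj f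
  have hlead : (f.map (Int.castRingHom ℚ)).leadingCoeff = (L : ℚ) :=
    leadingCoeff_map_of_injective hinj f
  have hα : aeval α (f.map (Int.castRingHom ℚ)) = 0 := by
    have h1 : (Int.castRingHom ℚ) = algebraMap ℤ ℚ := rfl
    rw [h1, aeval_map_algebraMap, h0]
  obtain ⟨e, he, hnorm⟩ := norm_sub α _ hf hα u v (by exact_mod_cast hv)
  rw [hdeg, hlead, ← hom_eval f u v hv] at hnorm
  set F : ℤ := hom f f.natDegree u v with hF
  have hN : (Algebra.norm ℤ x : ℚ) = (L : ℚ) ^ (Module.finrank ℚ K) * ((F : ℚ) / L) ^ e := by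
    rw [Algebra.coe_norm_int, hxK, map_mul, ← hnorm]
    congr 1
    · have h1 : (L : K) = algebraMap ℚ K (L : ℚ) := by simp
      rw [h1, Algebra.norm_algebraMap]
    · simp
  have hN2 : L ^ e * Algebra.norm ℤ x = L ^ (Module.finrank ℚ K) * F ^ e := by
    have h1 : (L : ℚ) ^ e * (Algebra.norm ℤ x : ℚ) = (L : ℚ) ^ (Module.finrank ℚ K) * (F : ℚ) ^ e := by
      rw [hN, div_pow]
      field_simp
    exact_mod_cast h1
  have hpN : (p : ℤ) ∣ Algebra.norm ℤ x := by
    have h1 : (p : ℤ) ∣ L ^ e * Algebra.norm ℤ x := by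
      rw [hN2]
      exact Dvd.dvd.mul_left (dvd_pow hpF (by omega)) _
    rcases hpi.dvd_or_dvd h1 with h2 | h2
    · exact absurd (hpi.dvd_of_dvd_pow h2) hpL
    · exact h2
  have habs : p ∣ Ideal.absNorm (Ideal.span {x}) := by
    rw [Ideal.absNorm_span_singleton]
    exact Int.natCast_dvd.1 hpN
  obtain ⟨P, hPm, hPu, hPd⟩ := Ideal.exists_isMaximal_dvd_of_dvd_absNorm' hp _ habs
  have hpP : (p : 𝓞 K) ∈ P := by
    have h1 : (p : ℤ) ∈ P.under ℤ := by
      rw [hPu]
      exact Ideal.mem_span_singleton_self _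
    rw [Ideal.mem_under] at h1
    simpa using h1
  have hP0 : P ≠ ⊥ := by
    rintro rfl
    rw [Ideal.mem_bot] at hpP
    exact hp.ne_zero (by exact_mod_cast hpP)
  set w : HeightOneSpectrum (𝓞 K) := ⟨P, hPm.isPrime, hP0⟩ with hw
  have hwp : fv w (p : K) < 1 := (fv_nat_lt_iff w p).2 hpP
  refine ⟨w, hwp, ?_⟩
  have hwx : fv w (x : K) < 1 := by
    refine (fv_lt_iff w x).2 ?_
    exact (Ideal.dvd_span_singleton).1 hPd
  rw [hxK, map_mul, fv_one w p hp hwp L hpL, one_mul] at hwx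
  exact hwx

lemma fv_add_eq (w : HeightOneSpectrum (𝓞 K)) {x y : K} (hx : fv w x < 1) (hy : fv w y = 1) :
    fv w (x + y) = 1 := by
  refine le_antisymm ?_ ?_
  · refine (fv_na w x y).trans ?_
    rw [hy]
    exact max_le hx.le le_rfl
  · have h1 := fv_na w (x + y) (-x)
    have h2 : x + y + -x = y := by ring
    rw [h2, hy, map_neg_eq_map] at h1
    rcases le_max_iff.1 h1 with h3 | h3
    · exact h3
    · exact absurd hx (not_lt.2 h3)

/-- the local situation at a good place where `u - v α j` is small -/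
lemma local_pt (w : HeightOneSpectrum (𝓞 K)) (α : Fin 3 → K) (u v : ℤ) (huv : IsCoprime u v)
    (hv : v ≠ 0) (h1 : ∀ j, fv w (α j) ≤ 1) (h2 : ∀ i j, i ≠ j → fv w (α i - α j) = 1) (j : Fin 3)
    (hj : fv w ((u : K) - v * α j) < 1) :
    fv w (ptK α ((u : K) / v) j) < 1 ∧ ∀ l, l ≠ j → fv w (ptK α ((u : K) / v) l) = 1 := by
  have hvK : (v : K) ≠ 0 := by exact_mod_cast hv
  -- `v` is a unit
  have hv1 : fv w (v : K) = 1 := by
    by_contra hne
    have h3 : fv w (v : K) < 1 := lt_of_le_of_ne (fv_int w v) hne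
    have h4 := max_one w u v huv
    have h5 : fv w (u : K) = 1 := by
      rcases max_choice (fv w (u : K)) (fv w (v : K)) with h | h
      · rwa [h] at h4
      · rw [h] at h4
        exact absurd h4 hne
    have h6 : fv w (-((v : K) * α j)) < 1 := by
      rw [map_neg_eq_map, map_mul]
      have := (fv w).nonneg (v : K)
      have := (fv w).nonneg (α j)
      nlinarith [h1 j]
    have h7 := fv_add_eq w h6 h5
    have h8 : -((v : K) * α j) + u = u - v * α j := by ring
    rw [h8] at h7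
    exact hj.ne h7
  have hsm : ∀ l, fv w ((u : K) / v - α l) = fv w ((u : K) - v * α l) := by
    intro l
    have h3 : (u : K) - v * α l = v * ((u : K) / v - α l) := by field_simp
    rw [h3, map_mul, hv1, one_mul]
  have hpt : ∀ l, fv w (ptK α ((u : K) / v) l) = fv w ((u : K) - v * α l) := by
    intro l
    rw [← hsm l]
    fin_cases l
    · simp only [ptK, Fin.zero_eta, Matrix.cons_val_zero]
      rw [map_mul, h2 1 2 (by decide), mul_one]
    · simp only [ptK, Fin.mk_one, Matrix.cons_val_one, Matrix.cons_val_zero]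
      rw [map_mul, h2 2 0 (by decide), mul_one]
    · simp only [ptK, Fin.reduceFinMk, Matrix.cons_val]
      rw [map_mul, h2 0 1 (by decide), mul_one]
  refine ⟨by rw [hpt]; exact hj, fun l hl => ?_⟩
  rw [hpt]
  have h3 : (u : K) - v * α l = (u - v * α j) + v * (α j - α l) := by ring
  rw [h3]
  refine fv_add_eq w hj ?_
  rw [map_mul, hv1, h2 j l hl.symm, one_mul]

/-- the terms of the radical -/
lemma radK_eq (P : Fin 3 → K) (hP : ∀ j, P j ≠ 0) (S : Finset (HeightOneSpectrum (𝓞 K)))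
    (hS : ∀ w ∈ S, ¬ (fv w (P 0) = fv w (P 1) ∧ fv w (P 1) = fv w (P 2))) :
    ∑ w ∈ S, Real.log (Nv w) ≤ (Module.finrank ℚ K : ℝ) * radK P := by
  classical
  set B : Set (HeightOneSpectrum (𝓞 K)) :=
    {w | ¬ (fv w (P 0) = fv w (P 1) ∧ fv w (P 1) = fv w (P 2))} with hB
  have hfin : B.Finite := by
    refine (Set.finite_iUnion fun j : Fin 3 => fv_support_finite (hP j)).subset ?_
    intro w hw
    rw [Set.mem_iUnion]
    by_contra hc
    push Not at hc
    apply hw
    have h1 : ∀ j, fv w (P j) = 1 := fun j => by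
      have := hc j
      simpa using this
    rw [h1, h1, h1]
    exact ⟨rfl, rfl⟩
  have h1 : radK P = (∑ w ∈ hfin.toFinset, Real.log (Nv w)) / (Module.finrank ℚ K : ℝ) := by
    rw [radK]
    congr 1
    exact finsum_mem_eq_finite_toFinset_sum _ hfin
  rw [h1, mul_div_cancel₀ _ n_pos.ne']
  refine Finset.sum_le_sum_of_subset_of_nonneg (fun w hw => ?_) fun w _ _ => (log_Nv_pos w).le
  rw [Set.Finite.mem_toFinset]
  exact hS w hw

end nrm

theorem t_RADK : S_RADK := by
  intro K _ _ α hα f hf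
  classical
  have hf0 : ∀ j, (f j).leadingCoeff ≠ 0 := by
    intro j h
    have h1 : f j = 0 := leadingCoeff_eq_zero.1 h
    have h2 := (hf j).1.ne_zero
    rw [h1, Polynomial.map_zero] at h2
    exact h2 rfl
  have hfin : (⋃ q : {q : Fin 3 × Fin 3 // q.1 ≠ q.2},
      {w : HeightOneSpectrum (𝓞 K) | fv w (α q.1.1 - α q.1.2) ≠ 1}).Finite :=
    Set.finite_iUnion fun q => fv_support_finite (sub_ne_zero.2 fun h => q.2 (hα h))
  set W := hfin.toFinset with hW
  have hWn : ∀ w, w ∉ W → ∀ i j, i ≠ j → fv w (α i - α j) = 1 := by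
    intro w hw i j hij
    by_contra h
    apply hw
    rw [hW, Set.Finite.mem_toFinset, Set.mem_iUnion]
    exact ⟨⟨(i, j), hij⟩, h⟩
  set m : ℕ := (∏ w ∈ W, Ideal.absNorm w.asIdeal) * ∏ j, ((f j).leadingCoeff).natAbs with hm
  refine ⟨m, ?_, fun u v huv hv hne => ?_⟩
  · refine Nat.one_le_iff_ne_zero.2 (mul_ne_zero (Finset.prod_ne_zero_iff.2 fun w _ => ?_)
      (Finset.prod_ne_zero_iff.2 fun j _ => Int.natAbs_ne_zero.2 (hf0 j)))
    have := NumberField.HeightOneSpectrum.one_lt_absNorm w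
    omega
  · have hvK : (v : K) ≠ 0 := by exact_mod_cast hv
    set Pr : Fin 3 → Finset ℕ := fun j =>
      (hom (f j) (f j).natDegree u v).natAbs.primeFactors.filter (fun p => ¬ p ∣ m) with hPr
    have hPp : ∀ j, ∀ p ∈ Pr j, p.Prime ∧ (p : ℤ) ∣ hom (f j) (f j).natDegree u v ∧ ¬ p ∣ m := by
      intro j p hp
      rw [hPr, Finset.mem_filter, Nat.mem_primeFactors] at hp
      exact ⟨hp.1.1, Int.natCast_dvd.2 hp.1.2.1, hp.2⟩
    have hlead : ∀ p : ℕ, ¬ p ∣ m → ∀ j, ¬ (p : ℤ) ∣ (f j).leadingCoeff := by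
      intro p hp j h
      apply hp
      rw [hm]
      exact Dvd.dvd.mul_left ((Int.natCast_dvd.1 h).trans (Finset.dvd_prod_of_mem
        (fun j => ((f j).leadingCoeff).natAbs) (Finset.mem_univ j))) _
    have hgood : ∀ p : ℕ, p.Prime → ¬ p ∣ m → ∀ w : HeightOneSpectrum (𝓞 K),
        fv w (p : K) < 1 → w ∉ W := by
      intro p hp hpm w hw hwW
      apply hpm
      rw [hm]
      exact Dvd.dvd.mul_right ((dvd_norm w p hp hw).trans (Finset.dvd_prod_of_mem
        (fun w : HeightOneSpectrum (𝓞 K) => Ideal.absNorm w.asIdeal) hwW)) _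
    have hex : ∀ x : (Σ _ : Fin 3, ℕ), ∃ w : HeightOneSpectrum (𝓞 K), x.2 ∈ Pr x.1 →
        fv w (x.2 : K) < 1 ∧ fv w ((u : K) - v * α x.1) < 1 := by
      rintro ⟨j, p⟩
      by_cases hp : p ∈ Pr j
      · obtain ⟨h1, h2, h3⟩ := hPp j p hp
        obtain ⟨w, hw⟩ := exists_place (α j) (f j) (hf j).1 (hf j).2 u v hv p h1 (hlead p h3 j) h2
        exact ⟨w, fun _ => hw⟩
      · have h1 : Nonempty (HeightOneSpectrum (𝓞 K)) := by
          obtain ⟨w, -, -⟩ : ∃ w : HeightOneSpectrum (𝓞 K), fv w ((2 : ℕ) : K) < 1 ∧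
              fv w (((0 : ℤ) : K) - ((1 : ℤ) : K) * 0) < 1 := by
            refine exists_place (0 : K) X ?_ (by simp) 0 1 one_ne_zero 2 Nat.prime_two
              (by rw [leadingCoeff_X]; norm_num) ?_
            · rw [Polynomial.map_X]
              exact irreducible_X
            · rw [natDegree_X, hom]
              simp [coeff_X]
          exact ⟨w⟩
        obtain ⟨w⟩ := h1
        exact ⟨w, fun h => absurd h hp⟩
    choose ω hω using hex
    have hloc : ∀ j, ∀ p ∈ Pr j, fv (ω ⟨j, p⟩) (ptK α ((u : K) / v) j) < 1 ∧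
        ∀ l, l ≠ j → fv (ω ⟨j, p⟩) (ptK α ((u : K) / v) l) = 1 := by
      intro j p hp
      obtain ⟨h1, h2, h3⟩ := hPp j p hp
      obtain ⟨h4, h5⟩ := hω ⟨j, p⟩ hp
      have hwW := hgood p h1 h3 _ h4
      refine local_pt _ α u v huv hv (fun l => ?_) (fun i l hil => hWn _ hwW i l hil) j h5
      -- `α l` is integral
      have h6 := isIntegral_leadingCoeff_smul (f l) (α l) (hf l).2
      rw [zsmul_eq_mul] at h6
      have h7 := FinitePlace.norm_le_one (K := K) (ω ⟨j, p⟩) (⟨_, h6⟩ : 𝓞 K)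
      have h8 : fv (ω ⟨j, p⟩) (((f l).leadingCoeff : K) * α l) ≤ 1 := h7
      rwa [map_mul, fv_one _ p h1 h4 _ (hlead p h3 l), one_mul] at h8
    set I : Finset (Σ _ : Fin 3, ℕ) := (Finset.univ : Finset (Fin 3)).sigma Pr with hI
    have hinjω : Set.InjOn ω I := by
      rintro ⟨j, p⟩ hx ⟨j', p'⟩ hx' h
      have hp : p ∈ Pr j := (Finset.mem_sigma.1 (Finset.mem_coe.1 hx)).2
      have hp' : p' ∈ Pr j' := (Finset.mem_sigma.1 (Finset.mem_coe.1 hx')).2
      have h1 : p = p' := by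
        refine uniq (ω ⟨j, p⟩) p p' (hPp j p hp).1 (hPp j' p' hp').1 (hω ⟨j, p⟩ hp).1 ?_
        rw [h]
        exact (hω ⟨j', p'⟩ hp').1
      have h2 : j = j' := by
        by_contra hne'
        have h3 := (hloc j p hp).1
        rw [h, (hloc j' p' hp').2 j hne'] at h3
        exact lt_irrefl _ h3
      rw [h1, h2]
    have hlog : ∀ x ∈ I, Real.log (x.2 : ℝ) ≤ Real.log (Nv (ω x)) := by
      rintro ⟨j, p⟩ hx
      have hp : p ∈ Pr j := (Finset.mem_sigma.1 hx).2
      have h1 := (hPp j p hp).1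
      have h2 := dvd_norm (ω ⟨j, p⟩) p h1 (hω ⟨j, p⟩ hp).1
      apply Real.log_le_log (by exact_mod_cast h1.pos)
      have h3 := NumberField.HeightOneSpectrum.one_lt_absNorm (ω ⟨j, p⟩)
      have h4 := Nat.le_of_dvd (by omega) h2
      rw [Nv]
      exact_mod_cast h4
    calc ∑ j, ∑ p ∈ Pr j, Real.log (p : ℝ) = ∑ x ∈ I, Real.log (x.2 : ℝ) := by
          rw [hI, Finset.sum_sigma]
      _ ≤ ∑ x ∈ I, Real.log (Nv (ω x)) := Finset.sum_le_sum hlog
      _ = ∑ w ∈ I.image ω, Real.log (Nv w) := by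
          rw [Finset.sum_image hinjω]
      _ ≤ (Module.finrank ℚ K : ℝ) * radK (ptK α ((u : K) / (v : K))) := by
          refine radK_eq _ (fun j => ?_) _ fun w hw => ?_
          · have h1 : ∀ l, (u : K) / v - α l ≠ 0 := by
              intro l h
              apply hne l
              have h3 : (u : K) - v * α l = v * ((u : K) / v - α l) := by field_simp
              rw [h3, h, mul_zero]
            have h2 : ∀ i l : Fin 3, i ≠ l → α i - α l ≠ 0 := fun i l hil =>
              sub_ne_zero.2 fun h => hil (hα h)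
            fin_cases j
            · exact mul_ne_zero (h1 0) (h2 1 2 (by decide))
            · exact mul_ne_zero (h1 1) (h2 2 0 (by decide))
            · exact mul_ne_zero (h1 2) (h2 0 1 (by decide))
          · obtain ⟨⟨j, p⟩, hx, rfl⟩ := Finset.mem_image.1 hw
            have hp : p ∈ Pr j := (Finset.mem_sigma.1 hx).2
            obtain ⟨h1, h2⟩ := hloc j p hp
            rintro ⟨h3, h4⟩
            fin_cases j
            · simp only [Fin.zero_eta] at h1 h2 h3 h4
              rw [h3, h2 1 (by decide)] at h1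
              exact lt_irrefl _ h1
            · simp only [Fin.mk_one] at h1 h2 h3 h4
              rw [h4, h2 2 (by decide)] at h1
              exact lt_irrefl _ h1
            · simp only [Fin.reduceFinMk] at h1 h2 h3 h4
              rw [← h4, h2 1 (by decide)] at h1
              exact lt_irrefl _ h1

end Pool.Agent.W563.QD
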